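import Mathlib
import Pool.Agent.H647Z.FubDefs
import Pool.Agent.H647Z.Fub4

set_option autoImplicit false

namespace Pool.Agent.Results.MP_0d317a_lc.AForcedProductTop

open Pool.Agent.H647Z.Fub

/-- There is a forcing notion adding no reals, all of whose conditions force that there are two
nonprincipal ultrafilters on the natural numbers which are not Tukey-top while their Fubini
product is Tukey-top. -/
theorem result : ∃ (P : Type) (_ : Preorder P), Nonempty P ∧ ∀ p : P, p ∈ NoNew P ∧
    p ∈ fex fun U : Set ℕ → Set P => fex fun V : Set ℕ → Set P =>
      fand (fand (IsUltra U) (fand (NonPrincipal U) (fnot (Top fun S => meets (U S)))))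
        (fand (fand (IsUltra V) (fand (NonPrincipal V) (fnot (Top fun S => meets (V S)))))
          (Top (MemProd U V))) :=
  main

end Pool.Agent.Results.MP_0d317a_lc.AForcedProductTop
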